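import Pool.Agent.MG.Final
import Pool.Agent.MB.B20
import Pool.Agent.H78.Dom.Main
import Pool.Agent.H69.Metab.Wrapper

set_option autoImplicit false

/-!
# Recognising metabelian groups among finitely presented solvable groups is undecidable
-/

namespace Pool.Agent.Results.MP_faf39d_al.Undecidable

open Pool.Agent.H69.Metab

/-- For every partial recursive function `f` there is a finite presentation `P` (all letters of the
relators are among the generators or their inverses) of a solvable group, of derived length at most
three, on which `f` is undefined or gives the wrong answer to the question whether the group is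
metabelian. -/
theorem result (f : Pres →. Bool) (hf : Partrec f) :
    ∃ P : Pres, (∀ r ∈ P.2, ∀ x ∈ r, x.1 < P.1) ∧ Group.IsSolvable (Grp P) ∧
      derivedSeries (Grp P) 3 = ⊥ ∧ ¬ ∃ b ∈ f P, (b = true ↔ IsMetabelian (Grp P)) := by
  classical
  obtain ⟨S, hSre, hS⟩ := Pool.Agent.H78.Dom.exists_re_not_computable
  obtain ⟨Tl, hT, hT', s, m, H, V, hsm, htile⟩ := Pool.Agent.H78.Dom.exists_tiles hSre
  haveI : Fact (Nat.Prime 1009) := ⟨by norm_num⟩
  obtain ⟨d, W, hW, hne⟩ := Pool.Agent.MB.symbolic_main 1009 (by norm_num) H V s m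
  obtain ⟨c, hc, hck⟩ := Pool.Agent.MG.group_main (p := 1009) (by norm_num) W
    (fun w hw => hne w hw 0 0)
  have hmet : ∀ n, IsMetabelian (Grp (c n)) ↔ S n := by
    intro n
    rw [(hck n).2.2.2, hW n, ← htile n, not_not]
  have hsolv : ∀ n, derivedSeries (Grp (c n)) 3 = ⊥ := fun n => (hck n).2.2.1
  by_contra hcon
  push Not at hcon
  have h1 : ∀ n, ∃ b ∈ f (c n), (b = true ↔ IsMetabelian (Grp (c n))) := fun n =>
    hcon (c n) (hck n).1 ⟨⟨3, hsolv n⟩⟩ (hsolv n)
  choose g hg hg' using h1
  have h2 : Partrec fun n => f (c n) := hf.comp hc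
  have h3 : Computable g := by
    have h4 : (fun n => f (c n)) = fun n => Part.some (g n) := by
      funext n
      exact Part.eq_some_iff.2 (hg n)
    rw [h4] at h2
    exact h2
  refine hS (ComputablePred.computable_iff.2 ⟨g, h3, ?_⟩)
  funext n
  apply propext
  rw [← hmet n, ← hg' n]

end Pool.Agent.Results.MP_faf39d_al.Undecidable
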